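import Pool.Agent.Work.MP_8d80dd_co.Final

set_option autoImplicit false

namespace Pool.Agent.Results.MP_8d80dd_co.ProjectionsRich

open Pool.Agent.Work.MP_8d80dd_co

/-- Every letter-to-letter image of an episturmian word is rich; in particular every binary
projection of an episturmian word over a finite alphabet is rich. -/
theorem result {A B : Type*} (u : ℕ → A) (hu : Episturmian u) (ζ : A → B) :
    RichWord (fun n => ζ (u n)) :=
  richWord_map ζ u hu

end Pool.Agent.Results.MP_8d80dd_co.ProjectionsRich
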